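import Mathlib

/-!
# Arc-transitive groups and graph eigenspaces: a counterexample

We construct a connected graph `G` on 30 vertices whose full automorphism group is
arc-transitive, together with a subspace `W` of `ℝ^V` that is irreducible for the full
automorphism group and is contained in no eigenspace of the adjacency matrix.

The vertices are the pairs `(i, T)` with `i ∈ {0,..,4}` and `T` a 2-subset of
`{0,..,4}` avoiding `i`; `(i, T)` and `(j, U)` are adjacent when `i ∈ U`, `j ∈ T` and
`T`, `U` are disjoint (this is the 3-arc graph of the Petersen graph).  The vertex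
`(i, T)` is coded by a number `6 i + r`, `r < 6`.
-/

namespace Pool.Agent.Results.MP_63f2bb_co.FullAutCounterexample

/-- A subgroup `S` of the automorphism group of `G` is arc-transitive if it acts
transitively on the ordered pairs of adjacent vertices. -/
def ArcTransitive {V : Type} (G : SimpleGraph V) (S : Subgroup (G ≃g G)) : Prop :=
  ∀ a b c d : V, G.Adj a b → G.Adj c d → ∃ σ ∈ S, σ a = c ∧ σ b = d

/-- The linear action of an automorphism on `ℝ^V`: `(σ x)_{σ i} = x_i`. -/
def act {V : Type} {G : SimpleGraph V} (σ : G ≃g G) (x : V → ℝ) : V → ℝ :=
  fun i => x (σ.symm i)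

/-- `W` is an `S`-invariant subspace. -/
def InvariantUnder {V : Type} {G : SimpleGraph V} (S : Subgroup (G ≃g G))
    (W : Submodule ℝ (V → ℝ)) : Prop :=
  ∀ σ ∈ S, ∀ x ∈ W, act σ x ∈ W

/-- `W` is an `S`-irreducible subspace: nonzero, `S`-invariant and containing no
`S`-invariant subspace other than `0` and `W`. -/
def IrreducibleUnder {V : Type} {G : SimpleGraph V} (S : Subgroup (G ≃g G))
    (W : Submodule ℝ (V → ℝ)) : Prop :=
  W ≠ ⊥ ∧ InvariantUnder S W ∧
    ∀ U : Submodule ℝ (V → ℝ), U ≤ W → InvariantUnder S U → U = ⊥ ∨ U = W

/-! ### Data -/

def big : ℕ := 41917901099250223227775433283493554280426839162658401312293446337052328251331855274141318478912032418577167881842702006779261174958245350604383052225075869744524161923183982994148797407314641641828992323241137646881525925855103875348404210068455931708629275952937984384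
def big2 : ℕ := 8188570868730740126451570946960217827327929706054061898521113522833202161248974734345050757497478569851739485157024297673373024875316269207310979561921719097833054451279819337582025625220675434461726145310297369080196079724156152026031234422602368751075800824790132981791
def big3 : ℕ := 132069531489454772624518858860755890374567900096364064538889710182073091341842075708722225462218327934040131417405532653646101610851528390676066106640610433070659071864884480305824461709186639200404999249049762868883925354142436669518327051786599248493180090050678882240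
def big4 : ℕ := 132073633029922623492579826913929275265259579838631774317618594995605370387383905588097836987753352369367894267382474352186838410234418492767471687597968231341513302077545378125081863262341679554765255513686472012848037921022466931978316945102228279125107847863870685216
def arcU : ℕ := 1107398400646665544669291059354396449725379754042888798567179039201256012931227597111206840169482498167045705773275506664426235484013795965090322725237001370790718346409210464647778884706144152212140238496848921912926206790337454229906330648504854534683918900147024539669744667968965445120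
def arcV : ℕ := 841660916419486046420099307819483389759986783891944874242600527362436500557040802577116420391639786249716462612001739210934109356437802986139977731774685073653263052242249164028747880036761304451669070507652680206735957404212486190421722892982386709767896700404636182627672345758311186695
def arcPar : ℕ := 4394495926052269138702115825051621303428122623093802734597461960227484644450217839223156234278063255778175098684351348643089354118417500236195823624972326023240273571850314348423548175142976748814448337961789545376152143242952146876972622153633373339792113637252953058044398135835403223040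
def arcGen : ℕ := 8863311988776343766703762987716894964229431002993705949788951845682756883253655926880888502435366214338546347742142089661510778410787623737220509731099100735888804331711661004821353798909022854547833077128122433691926426191059063122398858475268260917977081756136891112224784384
def arcIdx : ℕ := 168113435599324006037022643175285126820906878927725496276422093499076408592432333343988098932780219515119119966294179695451580048168549907098109233698227967206644783384292355151365181476706894618805367432851207886232423924237217440625472348182407318946565473550415412511850719365915847204590020701942742348893673882126225981796377797493543358973876413213384056543505400593261596091389643342579201498836156530870388773258904853303765658880450123098891310763494501537251782186735446051479976038892319526234634653113401627775881086840751539471422585266263387141490603831295972169095003059088114934058746127849671147461999058328439332982291839471705751527019110776747767089796121940806507177747181300577108069797340030044560118577408154569484776938391562627733312814455172266044553184861367021843492369670101976506840063861418524751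397144219833846271022668644947399148639629483738914857244273432147760272418824966991694765075383526077970030421824536598177005597313916479308365326236583857023355356301111347355645987763960059080266857532891484142643705462891085832897410752983880182131193734982686948948495579309492591452975869734059038610141696231613422559698600324251105097883700982189940048150802455018527844632768541733890011406070363962084224697086069509946383552249264839957652162737589170259076405754485943019027086975494288440392926661006225552060844588898294870767839779058128270006159411231934679519543801986866736700643678393999665737783473952147609825470004822962239341030783553590276279040666965312576143520859030025033552579248387568878071728092253866268511822460721960528382148471297859344320989418953448179839000084022155158464045321414723877437716723208234157901675867592238085947518909517486760950306437970667214945859789895133208956478158364341908839026414470277105146643061636109559513445404588934428473863265351071789172097353034032468358304217370061364852660511872852181814357846897036851643123453366115131377020414940487408467042708319408237704705341127459445733127909829930436584909403097226971535591193011091754590881873671381794371603332444555231620234267641447122206432457728565342102109460042872652357185658749619381104195665920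
def vPar : ℕ := 635922500497659539753678199528267431875648768
def vDist : ℕ := 92081901297603168105616490232547175961790528
def tabs : List ℕ := [1333682027107130044943122581233763405277530144, 1330810128998234391005297540861987149033283814, 1199750974738402691461716974451229102921138668, 1149701053861285709895575945189509551336577621, 135205247026542385056505382895125022518469531, 1330810128998234391005297540861987149033283814, 1333682027107130044943122581233763405277530144, 1290474292038668754004617637614678029014962272, 1244563438443679728761593632070195715980137507, 417190531980892855985826871972106530118011044, 1199750974738402691461716974451229102921138668, 1290474292038668754004617637614678029014962272, 1333682027107130044943122581233763405277530144, 1332330467823746008294708352343973611109976065, 779847490772635185423818237765777590394716194, 1149701053861285709895575945189509551336577621, 1244563438443679728761593632070195715980137507, 1332330467823746008294708352343973611109976065, 1333682027107130044943122581233763405277530144, 1057440538710838969317486884918930358574122048, 135205247026542385056505382895125022518469531,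 417190531980892855985826871972106530118011044, 779847490772635185423818237765777590394716194, 1057440538710838969317486884918930358574122048, 1333682027107130044943122581233763405277530144]

def adjB (u v : Fin 30) : Bool := Nat.testBit big (30 * u.val + v.val)
def cnB (u v : Fin 30) : Bool := Nat.testBit big2 (30 * u.val + v.val)
def w3B (u v : Fin 30) : Bool := Nat.testBit big3 (30 * u.val + v.val)
def antB (u v : Fin 30) : Bool := Nat.testBit big4 (30 * u.val + v.val)

def centre (u : Fin 30) : Fin 5 := Fin.ofNat 5 (u.val / 6)

def tr (i j : Fin 5) (u : Fin 30) : Fin 30 :=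
  Fin.ofNat 30 (((tabs.getD (5 * i.val + j.val) 0) >>> (5 * u.val)) % 32)

/-- The graph. -/
def G : SimpleGraph (Fin 30) where
  Adj u v := adjB u v = true
  symm := by
    have h : ∀ u v : Fin 30, adjB u v = true → adjB v u = true := by decide +kernel
    exact ⟨fun u v => h u v⟩
  loopless := by
    have h : ∀ u : Fin 30, ¬ adjB u u = true := by decide +kernel
    exact ⟨fun u => h u⟩

instance : DecidableRel G.Adj := fun u v => inferInstanceAs (Decidable (adjB u v = true))

theorem tr_tr : ∀ (i j : Fin 5) (u : Fin 30), tr i j (tr i j u) = u := by decide +kernel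

theorem adj_tr : ∀ (i j : Fin 5) (u v : Fin 30), adjB (tr i j u) (tr i j v) = adjB u v := by
  decide +kernel

theorem centre_tr : ∀ (i j : Fin 5) (u : Fin 30),
    centre (tr i j u) = Equiv.swap i j (centre u) := by
  decide +kernel

/-- The automorphism induced by the transposition `(i j)`. -/
def trAut (i j : Fin 5) : G ≃g G where
  toFun := tr i j
  invFun := tr i j
  left_inv := tr_tr i j
  right_inv := tr_tr i j
  map_rel_iff' := by
    intro a b
    show adjB (tr i j a) (tr i j b) = true ↔ adjB a b = true
    rw [adj_tr]

/-! ### Connectedness -/

def vp (u : Fin 30) : Fin 30 := Fin.ofNat 30 ((vPar >>> (5 * u.val)) % 32)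
def vd (u : Fin 30) : ℕ := (vDist >>> (5 * u.val)) % 32

theorem vp_adj : ∀ u : Fin 30, u ≠ 0 → adjB u (vp u) = true ∧ vd (vp u) < vd u := by
  decide +kernel

theorem reach_zero (u : Fin 30) : G.Reachable u 0 := by
  induction h : vd u using Nat.strong_induction_on generalizing u with
  | _ n ih =>
    by_cases hu : u = 0
    · subst hu; exact SimpleGraph.Reachable.refl _
    · obtain ⟨h1, h2⟩ := vp_adj u hu
      have h3 : G.Adj u (vp u) := h1
      exact h3.reachable.trans (ih (vd (vp u)) (h ▸ h2) (vp u) rfl)

theorem connected : G.Connected := by
  have : Nonempty (Fin 30) := ⟨0⟩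
  exact ⟨fun u v => (reach_zero u).trans (reach_zero v).symm⟩

/-! ### Arc-transitivity -/

def aU (t : Fin 120) : Fin 30 := Fin.ofNat 30 ((arcU >>> (8 * t.val)) % 256)
def aV (t : Fin 120) : Fin 30 := Fin.ofNat 30 ((arcV >>> (8 * t.val)) % 256)
def aP (t : Fin 120) : Fin 120 := Fin.ofNat 120 ((arcPar >>> (8 * t.val)) % 256)
def aG (t : Fin 120) : Fin 5 := Fin.ofNat 5 ((arcGen >>> (8 * t.val)) % 256)
def aI (u v : Fin 30) : Fin 120 :=
  Fin.ofNat 120 ((arcIdx >>> (8 * (30 * u.val + v.val))) % 256)

theorem arc_step : ∀ t : Fin 120, t ≠ 0 →
    (aP t).val < t.val ∧ tr (aG t) (aG t + 1) (aU (aP t)) = aU t ∧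
      tr (aG t) (aG t + 1) (aV (aP t)) = aV t := by
  decide +kernel

theorem arc_idx : ∀ u v : Fin 30, adjB u v = true → aU (aI u v) = u ∧ aV (aI u v) = v := by
  decide +kernel

theorem arc_reach (t : Fin 120) : ∃ σ : G ≃g G, σ (aU 0) = aU t ∧ σ (aV 0) = aV t := by
  induction h : t.val using Nat.strong_induction_on generalizing t with
  | _ n ih =>
    by_cases ht : t = 0
    · subst ht; exact ⟨RelIso.refl _, rfl, rfl⟩
    · obtain ⟨h1, h2, h3⟩ := arc_step t ht
      obtain ⟨σ, hσ1, hσ2⟩ := ih (aP t).val (h ▸ h1) (aP t) rfl
      refine ⟨σ.trans (trAut (aG t) (aG t + 1)), ?_, ?_⟩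
      · show tr (aG t) (aG t + 1) (σ (aU 0)) = aU t
        rw [hσ1, h2]
      · show tr (aG t) (aG t + 1) (σ (aV 0)) = aV t
        rw [hσ2, h3]

theorem arcTransitive : ArcTransitive G ⊤ := by
  intro a b c d hab hcd
  obtain ⟨h1, h2⟩ := arc_idx a b hab
  obtain ⟨h3, h4⟩ := arc_idx c d hcd
  obtain ⟨σ, hσ1, hσ2⟩ := arc_reach (aI a b)
  obtain ⟨τ, hτ1, hτ2⟩ := arc_reach (aI c d)
  refine ⟨σ.symm.trans τ, Subgroup.mem_top _, ?_, ?_⟩
  · show τ (σ.symm a) = c
    rw [← h1, ← hσ1, σ.symm_apply_apply, hτ1, h3]
  · show τ (σ.symm b) = d
    rw [← h2, ← hσ2, σ.symm_apply_apply, hτ2, h4]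

/-! ### Every automorphism preserves the partition by centres -/

def CN (u v : Fin 30) : Prop := ∃ w, adjB u w = true ∧ adjB w v = true
def W3 (u v : Fin 30) : Prop := ∃ w, adjB u w = true ∧ CN w v
def Ant (u v : Fin 30) : Prop := u ≠ v ∧ ¬ adjB u v = true ∧ ¬ CN u v ∧ ¬ W3 u v
def Same (u v : Fin 30) : Prop := u = v ∨ Ant u v ∨ (CN u v ∧ ∃ w, Ant u w ∧ CN w v)

theorem cn_iff' : ∀ u v : Fin 30, (∃ w, adjB u w = true ∧ adjB w v = true) ↔ cnB u v = true := by
  decide +kernel

theorem cn_iff (u v : Fin 30) : CN u v ↔ cnB u v = true := cn_iff' u v

theorem w3_iff' : ∀ u v : Fin 30, (∃ w, adjB u w = true ∧ cnB w v = true) ↔ w3B u v = true := by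
  decide +kernel

theorem w3_iff (u v : Fin 30) : W3 u v ↔ w3B u v = true := by
  rw [← w3_iff']
  unfold W3
  simp only [cn_iff]

theorem ant_iff' : ∀ u v : Fin 30,
    (u ≠ v ∧ ¬ adjB u v = true ∧ ¬ cnB u v = true ∧ ¬ w3B u v = true) ↔ antB u v = true := by
  decide +kernel

theorem ant_iff (u v : Fin 30) : Ant u v ↔ antB u v = true := by
  rw [← ant_iff']
  unfold Ant
  simp only [cn_iff, w3_iff]

theorem same_iff' : ∀ u v : Fin 30,
    (u = v ∨ antB u v = true ∨ (cnB u v = true ∧ ∃ w, antB u w = true ∧ cnB w v = true)) ↔
      centre u = centre v := by
  decide +kernel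

theorem same_iff (u v : Fin 30) : Same u v ↔ centre u = centre v := by
  rw [← same_iff']
  unfold Same
  simp only [cn_iff, ant_iff]

theorem adj_aut (σ : G ≃g G) (u v : Fin 30) : adjB (σ u) (σ v) = true ↔ adjB u v = true :=
  σ.map_rel_iff

theorem cn_aut (σ : G ≃g G) (u v : Fin 30) : CN (σ u) (σ v) ↔ CN u v := by
  unfold CN
  rw [σ.surjective.exists]
  simp only [adj_aut]

theorem w3_aut (σ : G ≃g G) (u v : Fin 30) : W3 (σ u) (σ v) ↔ W3 u v := by
  unfold W3
  rw [σ.surjective.exists]
  simp only [adj_aut, cn_aut]

theorem ant_aut (σ : G ≃g G) (u v : Fin 30) : Ant (σ u) (σ v) ↔ Ant u v := by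
  unfold Ant
  simp only [adj_aut, cn_aut, w3_aut, ne_eq, σ.injective.eq_iff]

theorem same_aut (σ : G ≃g G) (u v : Fin 30) : Same (σ u) (σ v) ↔ Same u v := by
  unfold Same
  rw [σ.surjective.exists]
  simp only [cn_aut, ant_aut, σ.injective.eq_iff]

theorem centre_aut (σ : G ≃g G) (u v : Fin 30) :
    centre (σ u) = centre (σ v) ↔ centre u = centre v := by
  rw [← same_iff, ← same_iff, same_aut]

/-! ### The subspace -/

/-- Functions constant on the classes of equal centre, with sum zero. -/
def W : Submodule ℝ (Fin 30 → ℝ) where
  carrier := {x | (∀ u v, centre u = centre v → x u = x v) ∧ ∑ u, x u = 0}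
  zero_mem' := by
    refine ⟨fun _ _ _ => rfl, by simp⟩
  add_mem' := by
    rintro x y ⟨hx1, hx2⟩ ⟨hy1, hy2⟩
    refine ⟨fun u v h => ?_, ?_⟩
    · simp [hx1 u v h, hy1 u v h]
    · simp [Finset.sum_add_distrib, hx2, hy2]
  smul_mem' := by
    rintro c x ⟨hx1, hx2⟩
    refine ⟨fun u v h => ?_, ?_⟩
    · simp [hx1 u v h]
    · simp [← Finset.mul_sum, hx2]

theorem W_inv : InvariantUnder (⊤ : Subgroup (G ≃g G)) W := by
  rintro σ - x ⟨hx1, hx2⟩
  refine ⟨fun u v h => ?_, ?_⟩
  · show x (σ.symm u) = x (σ.symm v)
    exact hx1 _ _ ((centre_aut σ.symm u v).2 h)
  · show ∑ u, x (σ.symm u) = 0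
    rw [← hx2]
    exact Equiv.sum_comp σ.symm.toEquiv x

/-- The difference of the indicator functions of the classes `i` and `j`. -/
def dd (i j : Fin 5) : Fin 30 → ℝ :=
  fun u => (if centre u = i then 1 else 0) - (if centre u = j then 1 else 0)

/-- A representative of each class. -/
def rep (i : Fin 5) : Fin 30 := Fin.ofNat 30 (6 * i.val)

theorem centre_rep : ∀ i : Fin 5, centre (rep i) = i := by decide +kernel

theorem sum_centre (f : Fin 5 → ℝ) : ∑ u : Fin 30, f (centre u) = 6 * ∑ i, f i := by
  have h : ∀ i : Fin 5, (Finset.univ.filter (fun u : Fin 30 => centre u = i)).card = 6 := by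
    decide +kernel
  rw [← Finset.sum_fiberwise_of_maps_to (g := centre) (t := Finset.univ)
    (fun _ _ => Finset.mem_univ _), Finset.mul_sum]
  refine Finset.sum_congr rfl fun i _ => ?_
  rw [Finset.sum_congr rfl (g := fun _ => f i)
    (fun u hu => by rw [(Finset.mem_filter.1 hu).2]), Finset.sum_const, h i]
  simp

theorem W_eq (x : Fin 30 → ℝ) (hx : x ∈ W) :
    ∃ y : Fin 5 → ℝ, (∑ i, y i = 0) ∧ ∀ u, x u = y (centre u) := by
  obtain ⟨hx1, hx2⟩ := hx
  refine ⟨fun i => x (rep i), ?_, fun u => hx1 _ _ (centre_rep _).symm⟩
  have h1 : ∑ u : Fin 30, x (rep (centre u)) = 0 := by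
    rw [← hx2]
    exact Finset.sum_congr rfl fun u _ => hx1 _ _ (centre_rep _)
  have h2 := sum_centre (fun i => x (rep i))
  have h3 : 6 * ∑ i, x (rep i) = 0 := by rw [← h2]; exact h1
  linarith

theorem act_trAut (i j : Fin 5) (y : Fin 5 → ℝ) (u : Fin 30) :
    act (trAut i j) (fun v => y (centre v)) u = y (Equiv.swap i j (centre u)) := by
  show y (centre (tr i j u)) = _
  rw [centre_tr]

theorem irreducible : IrreducibleUnder (⊤ : Subgroup (G ≃g G)) W := by
  refine ⟨?_, W_inv, ?_⟩
  · intro h
    have hm : dd 0 1 ∈ W := by
      refine ⟨fun u v huv => by simp [dd, huv], ?_⟩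
      have := sum_centre (fun c => (if c = 0 then (1:ℝ) else 0) - (if c = 1 then 1 else 0))
      simp only [dd]
      rw [this]
      simp
    rw [h, Submodule.mem_bot] at hm
    have h0 := congrFun hm (rep 0)
    simp only [dd, centre_rep] at h0
    norm_num at h0
  · intro U hU hinv
    by_cases hbot : U = ⊥
    · exact Or.inl hbot
    right
    obtain ⟨x, hxU, hx0⟩ := Submodule.exists_mem_ne_zero_of_ne_bot hbot
    obtain ⟨y, hy0, hxy⟩ := W_eq x (hU hxU)
    have hxy' : x = fun v => y (centre v) := funext hxy
    -- two different values
    have hij : ∃ i j, y i ≠ y j := by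
      by_contra hcon
      have hc : ∀ i, y i = y 0 := fun i => by
        by_contra hi
        exact hcon ⟨i, 0, hi⟩
      have : (5 : ℝ) * y 0 = 0 := by
        rw [← hy0, Finset.sum_congr rfl (fun i _ => hc i)]
        simp
      have hy00 : y 0 = 0 := by linarith
      exact hx0 (by rw [hxy']; funext v; simp [hc (centre v), hy00])
    obtain ⟨i, j, hne⟩ := hij
    have hijne : i ≠ j := fun h => hne (by rw [h])
    have hd : dd i j ∈ U := by
      have h1 : act (trAut i j) x ∈ U := hinv _ (Subgroup.mem_top _) x hxU
      have h2 : x - act (trAut i j) x ∈ U := U.sub_mem hxU h1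
      have h3 : x - act (trAut i j) x = (y i - y j) • dd i j := by
        funext u
        rw [hxy']
        simp only [Pi.sub_apply, Pi.smul_apply, smul_eq_mul, act_trAut, dd]
        by_cases hci : centre u = i
        · rw [hci, Equiv.swap_apply_left, if_pos rfl, if_neg hijne]; ring
        · by_cases hcj : centre u = j
          · rw [hcj, Equiv.swap_apply_right, if_neg (Ne.symm hijne), if_pos rfl]; ring
          · rw [Equiv.swap_apply_of_ne_of_ne hci hcj, if_neg hci, if_neg hcj]; ring
      rw [h3] at h2
      have h4 : y i - y j ≠ 0 := sub_ne_zero.2 hne
      have h5 := U.smul_mem (y i - y j)⁻¹ h2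
      rwa [smul_smul, inv_mul_cancel₀ h4, one_smul] at h5
    have hall : ∀ k, k ≠ i → dd i k ∈ U := by
      intro k hk
      by_cases hkj : k = j
      · rw [hkj]; exact hd
      have h1 : act (trAut j k) (dd i j) ∈ U := hinv _ (Subgroup.mem_top _) _ hd
      have h2 : act (trAut j k) (dd i j) = dd i k := by
        funext u
        have := act_trAut j k
          (fun c => (if c = i then (1:ℝ) else 0) - (if c = j then 1 else 0)) u
        show act (trAut j k) (fun v => (if centre v = i then (1:ℝ) else 0) -
          (if centre v = j then 1 else 0)) u = _
        rw [this]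
        simp only [dd]
        by_cases hcj : centre u = j
        · rw [hcj, Equiv.swap_apply_left, if_neg hk, if_neg hkj, if_neg (Ne.symm hijne),
            if_neg (Ne.symm hkj)]
        · by_cases hck : centre u = k
          · rw [hck, Equiv.swap_apply_right, if_neg (Ne.symm hijne), if_pos rfl, if_neg hk,
              if_pos rfl]
          · rw [Equiv.swap_apply_of_ne_of_ne hcj hck, if_neg hcj, if_neg hck]
      rwa [h2] at h1
    apply le_antisymm hU
    intro z hz
    obtain ⟨w, hw0, hzw⟩ := W_eq z hz
    have hz' : z = ∑ k ∈ Finset.univ.erase i, (-(w k)) • dd i k := by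
      funext u
      rw [Finset.sum_apply, hzw u]
      have e1 : ∀ k, (-(w k) • dd i k) u =
          (if centre u = k then w k else 0) - (if centre u = i then w k else 0) := by
        intro k
        simp only [Pi.smul_apply, smul_eq_mul, dd]
        split_ifs <;> ring
      rw [Finset.sum_congr rfl (fun k _ => e1 k)]
      have e2 : ∑ k ∈ Finset.univ.erase i,
          ((if centre u = k then w k else 0) - (if centre u = i then w k else 0)) =
          ∑ k, ((if centre u = k then w k else 0) - (if centre u = i then w k else 0)) -
            ((if centre u = i then w i else 0) - (if centre u = i then w i else 0)) := by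
        rw [← Finset.add_sum_erase Finset.univ _ (Finset.mem_univ i)]
        ring
      rw [e2, sub_self, sub_zero, Finset.sum_sub_distrib]
      by_cases hci : centre u = i
      · simp [hci, hw0]
      · simp [hci]
    rw [hz']
    exact U.sum_mem fun k hk => U.smul_mem _ (hall k (Finset.ne_of_mem_erase hk))

/-! ### `W` is contained in no eigenspace -/

theorem adj_sum (u : Fin 30) (x : Fin 30 → ℝ) :
    Matrix.toLin' (G.adjMatrix ℝ) x u = ∑ v, if adjB u v = true then x v else 0 := by
  rw [Matrix.toLin'_apply]
  simp only [Matrix.mulVec, dotProduct, SimpleGraph.adjMatrix_apply]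
  refine Finset.sum_congr rfl fun v _ => ?_
  have : G.Adj u v ↔ adjB u v = true := Iff.rfl
  simp only [this]
  split_ifs <;> simp

theorem not_le (θ : ℝ) :
    ¬ W ≤ Module.End.eigenspace (Matrix.toLin' (G.adjMatrix ℝ)) θ := by
  intro h
  have hm : dd 0 1 ∈ W := by
    refine ⟨fun u v huv => by simp [dd, huv], ?_⟩
    have := sum_centre (fun c => (if c = 0 then (1:ℝ) else 0) - (if c = 1 then 1 else 0))
    simp only [dd]
    rw [this]
    simp
  have h1 := Module.End.mem_eigenspace_iff.1 (h hm)
  -- compare the values at two vertices with centre `2`
  have hval : ∀ u : Fin 30, Matrix.toLin' (G.adjMatrix ℝ) (dd 0 1) u =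
      ((Finset.univ.filter (fun v : Fin 30 => adjB u v = true ∧ centre v = 0)).card : ℝ) -
      ((Finset.univ.filter (fun v : Fin 30 => adjB u v = true ∧ centre v = 1)).card : ℝ) := by
    intro u
    rw [adj_sum]
    rw [Finset.card_filter, Finset.card_filter]
    push_cast
    rw [← Finset.sum_sub_distrib]
    refine Finset.sum_congr rfl fun v _ => ?_
    simp only [dd]
    by_cases ha : adjB u v = true <;> simp [ha]
  have hz : ∃ u : Fin 30, centre u = 2 ∧
      (Finset.univ.filter (fun v : Fin 30 => adjB u v = true ∧ centre v = 0)).card = 2 ∧
      (Finset.univ.filter (fun v : Fin 30 => adjB u v = true ∧ centre v = 1)).card = 0 := by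
    decide +kernel
  obtain ⟨u, hu1, hu2, hu3⟩ := hz
  have h2 := congrFun h1 u
  rw [hval u, hu2, hu3] at h2
  have e0 : ¬ ((2 : Fin 5) = 0) := by decide
  have e1 : ¬ ((2 : Fin 5) = 1) := by decide
  simp only [Pi.smul_apply, smul_eq_mul, dd, hu1, if_neg e0, if_neg e1] at h2
  norm_num at h2

/-- There is a connected finite simple graph `G`, whose full automorphism group
`S = Aut(G)` is arc-transitive, with an `S`-irreducible subspace `W` of `ℝ^V` that is
contained in no eigenspace of the adjacency matrix of `G`. -/
theorem result : ∃ (V : Type) (_ : Fintype V) (_ : DecidableEq V) (G : SimpleGraph V)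
    (_ : DecidableRel G.Adj) (S : Subgroup (G ≃g G)) (W : Submodule ℝ (V → ℝ)),
    G.Connected ∧ S = ⊤ ∧ ArcTransitive G S ∧ IrreducibleUnder S W ∧
      ∀ θ : ℝ, ¬ W ≤ Module.End.eigenspace (Matrix.toLin' (G.adjMatrix ℝ)) θ :=
  ⟨Fin 30, inferInstance, inferInstance, G, inferInstance, ⊤, W, connected, rfl,
    arcTransitive, irreducible, not_le⟩

end Pool.Agent.Results.MP_63f2bb_co.FullAutCounterexample
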